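import Pool.Agent.KS6_1.RF.SL.Words
set_option autoImplicit false

/-!
The recursion choosing the relations, and nontriviality on all windows.
-/

namespace Pool.Agent.KS6_1.SLH

open Pool.Agent.H397R3 (TF conj_ext_many E map_E prod_tf free_tf free_conj_inj hnn_tf)

variable {H : Type} [Group H] (e : Enum H)

/-- words that are trivial in all models on the window `[p, q]` -/
def Triv (S : Set ℕ) (p q : ℤ) (w : Phi) : Prop :=
  ∀ (K : Type) [Group K] (f : Lt → K), Mod e S p q K f → FreeGroup.lift f w = 1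

/-- the normal subgroup of words trivial in all models -/
def trivSub (S : Set ℕ) (p q : ℤ) : Subgroup Phi where
  carrier := {w | Triv e S p q w}
  one_mem' := fun K _ f _ => map_one _
  mul_mem' := by
    intro a b ha hb K _ f hf
    rw [map_mul, ha K f hf, hb K f hf, one_mul]
  inv_mem' := by
    intro a ha K _ f hf
    rw [map_inv, ha K f hf, inv_one]

theorem mem_trivSub {S : Set ℕ} {p q : ℤ} {w : Phi} : w ∈ trivSub e S p q ↔ Triv e S p q w :=
  Iff.rfl

instance trivSub_normal (S : Set ℕ) (p q : ℤ) : (trivSub e S p q).Normal where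
  conj_mem := by
    intro n hn g K _ f hf
    rw [map_mul, map_mul, hn K f hf, map_inv, mul_one, mul_inv_cancel]

/-- the universal model -/
def uf (S : Set ℕ) (p q : ℤ) : Lt → Phi ⧸ trivSub e S p q :=
  fun x => QuotientGroup.mk' _ (FreeGroup.of x)

theorem lift_uf (S : Set ℕ) (p q : ℤ) (w : Phi) :
    FreeGroup.lift (uf e S p q) w = QuotientGroup.mk' _ w := by
  have : FreeGroup.lift (uf e S p q) = QuotientGroup.mk' (trivSub e S p q) := by
    apply FreeGroup.ext_hom
    intro x
    simp [uf]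
  exact DFunLike.congr_fun this w

theorem lift_uf_eq_one {S : Set ℕ} {p q : ℤ} {w : Phi} :
    FreeGroup.lift (uf e S p q) w = 1 ↔ Triv e S p q w := by
  rw [lift_uf, QuotientGroup.mk'_apply, QuotientGroup.eq_one_iff, mem_trivSub]

theorem mod_uf (S : Set ℕ) (p q : ℤ) : Mod e S p q _ (uf e S p q) := by
  refine ⟨?_, ?_, ?_⟩
  · intro x hx hfin
    obtain ⟨w, rfl⟩ := QuotientGroup.mk'_surjective _ x
    obtain ⟨n, hn, hp⟩ := isOfFinOrder_iff_pow_eq_one.1 hfin
    apply hx
    rw [← lift_uf, lift_uf_eq_one]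
    rw [← lift_uf, ← map_pow, lift_uf_eq_one] at hp
    intro K _ f hf
    by_contra hne
    have h1 := hp K f hf
    rw [map_pow] at h1
    exact hf.tf _ hne (isOfFinOrder_iff_pow_eq_one.2 ⟨n, hn, h1⟩)
  · intro i hi l h1 h2
    rw [lift_uf_eq_one]
    intro K _ f hf
    exact hf.rel i hi l h1 h2
  · intro v hv l h1 h2
    rw [← lift_lift_oW, lift_uf_eq_one]
    intro K _ f hf
    rw [lift_lift_oW]
    exact hf.hr v hv l h1 h2

/-- the chosen sets of relations -/
def SS : ℕ → Set ℕ
  | 0 => ∅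
  | k + 1 => SS k ∪ {j | j = k ∧ (e.n k ≠ 0 ∨ ¬ Triv e (SS k) (1 - e.D k) (-1) (e.w k))}

/-- the set of all chosen relations -/
def II : Set ℕ := {i | i ∈ SS e (i + 1)}

theorem SS_lt {k i : ℕ} (h : i ∈ SS e k) : i < k := by
  induction k with
  | zero => exact absurd h (by simp [SS])
  | succ k ih =>
    rcases h with h | ⟨rfl, _⟩
    · exact (ih h).trans (Nat.lt_succ_self k)
    · exact Nat.lt_succ_self _

theorem mem_SS {k i : ℕ} : i ∈ SS e k ↔ i < k ∧ i ∈ II e := by
  induction k with
  | zero => simp [SS]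
  | succ k ih =>
    constructor
    · intro h
      refine ⟨SS_lt e h, ?_⟩
      rcases h with h | h
      · exact (ih.1 h).2
      · obtain ⟨rfl, h⟩ := h
        exact Or.inr ⟨rfl, h⟩
    · rintro ⟨h1, h2⟩
      rcases Nat.lt_succ_iff_lt_or_eq.1 h1 with hlt | rfl
      · exact Or.inl (ih.2 ⟨hlt, h2⟩)
      · exact h2

theorem mod_SS_iff (i : ℕ) (K : Type) [Group K] (f : Lt → K) :
    Mod e (SS e i) (1 - e.D i) (-1) K f ↔ Mod e (II e) (1 - e.D i) (-1) K f := by
  constructor
  · intro h
    refine ⟨h.tf, ?_, h.hr⟩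
    intro j hj l h1 h2
    refine h.rel j ?_ l h1 h2
    rw [mem_SS]
    refine ⟨?_, hj⟩
    by_contra hle
    have : e.D i ≤ e.D j := e.mono.monotone (not_lt.1 hle)
    omega
  · intro h
    refine ⟨h.tf, ?_, h.hr⟩
    intro j hj l h1 h2
    exact h.rel j ((mem_SS e).1 hj).2 l h1 h2

theorem mem_II (i : ℕ) : i ∈ II e ↔
    (e.n i ≠ 0 ∨ ¬ Triv e (II e) (1 - e.D i) (-1) (e.w i)) := by
  have hT : Triv e (SS e i) (1 - e.D i) (-1) (e.w i) ↔ Triv e (II e) (1 - e.D i) (-1) (e.w i) := by
    unfold Triv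
    simp only [mod_SS_iff]
  rw [← hT]
  constructor
  · intro h
    have h' : i ∈ SS e (i + 1) := h
    rcases h' with h' | ⟨_, h'⟩
    · exact absurd (SS_lt e h') (lt_irrefl _)
    · exact h'
  · intro h
    exact Or.inr ⟨rfl, h⟩

theorem Mod.shift {e : Enum H} {S : Set ℕ} {p q : ℤ} {K : Type} [Group K] {f : Lt → K}
    (h : Mod e S p q K f) (k : ℤ) : Mod e S (p - k) (q - k) K (fun x => f (x.1 + k, x.2)) := by
  refine ⟨h.tf, ?_, ?_⟩
  · intro i hi l h1 h2
    rw [← lift_sh f, sh_sh]
    exact h.rel i hi (l + k) (by omega) (by omega)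
  · intro v hv l h1 h2
    exact h.hr v hv (l + k) (by omega) (by omega)

theorem triv_sh {S : Set ℕ} {p q : ℤ} {w : Phi} (h : Triv e S p q w) (k : ℤ) :
    Triv e S (p + k) (q + k) (sh k w) := by
  intro K _ f hf
  rw [lift_sh]
  apply h
  have := hf.shift k
  rw [show p + k - k = p by omega, show q + k - k = q by omega] at this
  exact this

theorem triv_sh_iff {S : Set ℕ} {p q : ℤ} {w : Phi} (k : ℤ) :
    Triv e S (p + k) (q + k) (sh k w) ↔ Triv e S p q w := by
  refine ⟨fun h => ?_, fun h => triv_sh e h k⟩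
  have := triv_sh e h (-k)
  rwa [sh_sh, show k + -k = 0 by omega, sh_zero, show p + k + -k = p by omega,
    show q + k + -k = q by omega] at this

theorem Triv.mono {e : Enum H} {S : Set ℕ} {p q p' q' : ℤ} {w : Phi} (h : Triv e S p q w)
    (h1 : p' ≤ p) (h2 : q ≤ q') : Triv e S p' q' w := by
  intro K _ f hf
  refine h K f ⟨hf.tf, ?_, ?_⟩
  · intro i hi l hl hl'
    exact hf.rel i hi l (h1.trans hl) (hl'.trans h2)
  · intro v hv l hl hl'
    exact hf.hr v hv l (h1.trans hl) (hl'.trans h2)

theorem triv_top {S : Set ℕ} {p q : ℤ} (hpq : p ≤ q) {w : Phi}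
    (hG : Good e S p q _ (uf e S p q)) (hs : Supp p q w) (h : Triv e S p (q + 1) w) :
    Triv e S p q w := by
  obtain ⟨K', _, j, f', hj, hM, hf⟩ := ext_top e hpq hG
  have h1 := hs.lift_eq _ f' j hf
  rw [h K' f' hM] at h1
  rw [← lift_uf_eq_one]
  exact hj (by rw [map_one]; exact h1.symm)

theorem triv_bot {S : Set ℕ} {p q : ℤ} {w : Phi}
    (hG : Good e S p q _ (uf e S p q)) (hs : Supp p q w) (h : Triv e S (p - 1) q w) :
    Triv e S p q w := by
  obtain ⟨K', _, j, f', hj, hM, hf⟩ := ext_bot e hG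
  have h1 := hs.lift_eq _ f' j hf
  rw [h K' f' hM] at h1
  rw [← lift_uf_eq_one]
  exact hj (by rw [map_one]; exact h1.symm)

/-- the inclusion of the free group of rank three at level `l` -/
def lev (l : ℤ) : FreeGroup (Fin 3) →* Phi := FreeGroup.map (fun c => ((l, c) : Lt))

theorem supp_lev (l : ℤ) (v : FreeGroup (Fin 3)) : Supp l l (lev l v) := by
  have h1 : Subgroup.closure (Set.range (FreeGroup.of : Fin 3 → FreeGroup (Fin 3))) ≤
      (Subgroup.closure {x : Phi | ∃ m c, l ≤ m ∧ m ≤ l ∧ x = FreeGroup.of (m, c)}).comap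
        (lev l) := by
    rw [Subgroup.closure_le]
    rintro x ⟨c, rfl⟩
    refine Subgroup.subset_closure ⟨l, c, le_rfl, le_rfl, ?_⟩
    simp [lev]
  rw [FreeGroup.closure_range_of] at h1
  exact h1 (Subgroup.mem_top v)

/-- all windows are good -/
structure AllGood (p q : ℤ) : Prop where
  w_ne : ∀ i ∈ II e, e.n i = 0 → ∀ l : ℤ, p ≤ l - e.D i + 1 → l - 1 ≤ q →
    ¬ Triv e (II e) p q (sh l (e.w i))
  f_ne : ∀ l : ℤ, p ≤ l → l ≤ q → ∀ v : FreeGroup (Fin 3), FreeGroup.lift e.tB v ≠ 1 →
    ¬ Triv e (II e) p q (lev l v)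

theorem AllGood.good {e : Enum H} {p q : ℤ} (h : AllGood e p q) :
    Good e (II e) p q _ (uf e (II e) p q) := by
  refine ⟨mod_uf e _ p q, ?_, ?_⟩
  · intro i hi hn l h1 h2 h3
    exact h.w_ne i hi hn l h1 h2 ((lift_uf_eq_one e).1 h3)
  · intro l h1 h2 h3
    refine h.f_ne l h1 h2 (FreeGroup.of 0) (by simpa using e.t0) ?_
    rw [← lift_uf_eq_one]
    simpa [lev] using h3

theorem full_window {i : ℕ} (hi : i ∈ II e) (hn : e.n i = 0) (l : ℤ) :
    ¬ Triv e (II e) (l - e.D i + 1) (l - 1) (sh l (e.w i)) := by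
  have h1 := (mem_II e i).1 hi
  rcases h1 with h1 | h1
  · exact absurd hn h1
  · rw [← triv_sh_iff e l] at h1
    rwa [show 1 - (e.D i : ℤ) + l = l - e.D i + 1 by omega, show -1 + l = l - 1 by omega] at h1

theorem allGood_aux (s : ℕ) : ∀ p q : ℤ, q - p = s → AllGood e p q := by
  induction s with
  | zero =>
    intro p q hs
    have hpq : q = p := by simpa [sub_eq_zero] using hs
    subst hpq
    refine ⟨?_, ?_⟩
    · intro i hi hn l h1 h2
      have h3 := e.two_le i
      have h4 := full_window e hi hn l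
      rwa [show l - e.D i + 1 = q by omega, show l - 1 = q by omega] at h4
    · intro l h1 h2 v hv hT
      have h3 : Mod e (II e) q q e.B (fun x => e.tB x.2) := by
        refine ⟨e.tfB, ?_, ?_⟩
        · intro i hi l' h4 h5
          have h6 := e.two_le i
          omega
        · intro v hv l' _ _
          exact e.hB v hv
      have h4 := hT _ _ h3
      have h5 : (FreeGroup.lift (fun x : Lt => e.tB x.2)).comp (lev l)
          = FreeGroup.lift e.tB := by
        apply FreeGroup.ext_hom
        intro c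
        simp [lev]
      have h6 := DFunLike.congr_fun h5 v
      rw [MonoidHom.comp_apply, h4] at h6
      exact hv h6.symm
  | succ s ih =>
    intro p q hs
    have g1 := ih p (q - 1) (by push_cast at hs; omega)
    have g2 := ih (p + 1) q (by push_cast at hs; omega)
    have t1 : ∀ w, Supp p (q - 1) w → Triv e (II e) p q w → Triv e (II e) p (q - 1) w := by
      intro w hw hT
      refine triv_top e (by push_cast at hs; omega) g1.good hw ?_
      rwa [show q - 1 + 1 = q by omega]
    have t2 : ∀ w, Supp (p + 1) q w → Triv e (II e) p q w → Triv e (II e) (p + 1) q w := by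
      intro w hw hT
      refine triv_bot e g2.good hw ?_
      rwa [show p + 1 - 1 = p by omega]
    refine ⟨?_, ?_⟩
    · intro i hi hn l h1 h2 hT
      rcases Int.lt_or_le (l - 1) q with hlt | hle
      · refine g1.w_ne i hi hn l h1 (by omega) (t1 _ ?_ hT)
        exact ((e.supp i).sh l).mono (by omega) (by omega)
      · rcases Int.lt_or_le p (l - e.D i + 1) with hlt' | hle'
        · refine g2.w_ne i hi hn l (by omega) h2 (t2 _ ?_ hT)
          exact ((e.supp i).sh l).mono (by omega) (by omega)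
        · have h4 := full_window e hi hn l
          rw [show l - e.D i + 1 = p by omega, show l - 1 = q by omega] at h4
          exact h4 hT
    · intro l h1 h2 v hv hT
      rcases Int.lt_or_le l q with hlt | hle
      · exact g1.f_ne l h1 (by omega) v hv (t1 _ ((supp_lev l v).mono (by omega) (by omega)) hT)
      · exact g2.f_ne l (by push_cast at hs; omega) h2 v hv
          (t2 _ ((supp_lev l v).mono (by push_cast at hs; omega) (by omega)) hT)

theorem allGood {p q : ℤ} (hpq : p ≤ q) : AllGood e p q :=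
  allGood_aux e (q - p).toNat p q (by omega)

end Pool.Agent.KS6_1.SLH
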