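import Pool.Agent.KS6_1.RF.SL.Good
set_option autoImplicit false

/-!
The group.
-/

namespace Pool.Agent.KS6_1.SLH

open Pool.Agent.H397R3 (TF conj_ext_many E map_E prod_tf free_tf free_conj_inj hnn_tf)

variable {H : Type} [Group H] (e : Enum H)

/-- the words that are trivial in the limit group -/
def RR : Subgroup Phi where
  carrier := {w | ∃ n : ℕ, Triv e (II e) (-n) n w}
  one_mem' := ⟨0, fun K _ f _ => map_one _⟩
  mul_mem' := by
    rintro a b ⟨m, ha⟩ ⟨n, hb⟩
    refine ⟨max m n, ?_⟩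
    intro K _ f hf
    rw [map_mul, (ha.mono (by push_cast; omega) (by push_cast; omega)) K f hf,
      (hb.mono (by push_cast; omega) (by push_cast; omega)) K f hf, one_mul]
  inv_mem' := by
    rintro a ⟨m, ha⟩
    refine ⟨m, ?_⟩
    intro K _ f hf
    rw [map_inv, ha K f hf, inv_one]

theorem mem_RR {w : Phi} : w ∈ RR e ↔ ∃ n : ℕ, Triv e (II e) (-n) n w := Iff.rfl

theorem mem_RR_of {w : Phi} {p q : ℤ} (h : Triv e (II e) p q w) : w ∈ RR e := by
  exact ⟨p.natAbs + q.natAbs, h.mono (by omega) (by omega)⟩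

instance RR_normal : (RR e).Normal where
  conj_mem := by
    rintro n ⟨m, hm⟩ g
    refine ⟨m, ?_⟩
    intro K _ f hf
    rw [map_mul, map_mul, hm K f hf, map_inv, mul_one, mul_inv_cancel]

theorem sh_mem_RR {w : Phi} (h : w ∈ RR e) (k : ℤ) : sh k w ∈ RR e := by
  obtain ⟨n, hn⟩ := h
  exact mem_RR_of e (triv_sh e hn k)

theorem sh_mem_RR_iff {w : Phi} (k : ℤ) : sh k w ∈ RR e ↔ w ∈ RR e := by
  refine ⟨fun h => ?_, fun h => sh_mem_RR e h k⟩
  have := sh_mem_RR e h (-k)
  rwa [sh_sh, show k + -k = 0 by omega, sh_zero] at this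

/-- the limit group -/
abbrev NN := Phi ⧸ RR e

/-- the shift on the limit group -/
def shN (k : ℤ) : NN e →* NN e :=
  QuotientGroup.map (RR e) (RR e) (sh k) (fun _ h => sh_mem_RR e h k)

theorem shN_mk (k : ℤ) (w : Phi) :
    shN e k (QuotientGroup.mk' (RR e) w) = QuotientGroup.mk' (RR e) (sh k w) := rfl

theorem shN_shN (k l : ℤ) (x : NN e) : shN e k (shN e l x) = shN e (l + k) x := by
  obtain ⟨w, rfl⟩ := QuotientGroup.mk'_surjective _ x
  rw [shN_mk, shN_mk, sh_sh, shN_mk]

theorem shN_zero (x : NN e) : shN e 0 x = x := by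
  obtain ⟨w, rfl⟩ := QuotientGroup.mk'_surjective _ x
  rw [shN_mk, sh_zero]

/-- the action of the integers by shifts -/
def act : Multiplicative ℤ →* MulAut (NN e) where
  toFun k :=
    { toFun := shN e (Multiplicative.toAdd k)
      invFun := shN e (-(Multiplicative.toAdd k))
      left_inv := fun x => by rw [shN_shN, add_neg_cancel, shN_zero]
      right_inv := fun x => by rw [shN_shN, neg_add_cancel, shN_zero]
      map_mul' := fun x y => map_mul _ x y }
  map_one' := by
    apply MulEquiv.ext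
    intro x
    exact shN_zero e x
  map_mul' k l := by
    apply MulEquiv.ext
    intro x
    show shN e (Multiplicative.toAdd (k * l)) x =
      shN e (Multiplicative.toAdd k) (shN e (Multiplicative.toAdd l) x)
    rw [shN_shN, toAdd_mul, add_comm]

/-- the final group -/
abbrev GG := NN e ⋊[act e] Multiplicative ℤ

/-- classes of words -/
def cl (w : Phi) : NN e := QuotientGroup.mk' (RR e) w

theorem cl_mul (v w : Phi) : cl e (v * w) = cl e v * cl e w := rfl

theorem act_cl (k : ℤ) (w : Phi) : act e (Multiplicative.ofAdd k) (cl e w) = cl e (sh k w) := rfl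

theorem cl_eq_one {w : Phi} : cl e w = 1 ↔ w ∈ RR e := by
  unfold cl
  rw [QuotientGroup.mk'_apply, QuotientGroup.eq_one_iff]

/-- the element of the group given by a word -/
def gw (w : Phi) : GG e := SemidirectProduct.inl (cl e w)

/-- the stable letter -/
def tt : GG e := SemidirectProduct.inr (Multiplicative.ofAdd 1)

theorem tt_zpow (k : ℤ) : tt e ^ k = SemidirectProduct.inr (Multiplicative.ofAdd k) := by
  unfold tt
  rw [← map_zpow, ← ofAdd_zsmul]
  simp

theorem gw_mul (v w : Phi) : gw e (v * w) = gw e v * gw e w := by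
  unfold gw
  rw [cl_mul, map_mul]

theorem gw_one : gw e 1 = 1 := by
  unfold gw
  have : cl e 1 = 1 := map_one _
  rw [this, map_one]

theorem gw_inv (v : Phi) : gw e v⁻¹ = (gw e v)⁻¹ := by
  rw [eq_inv_iff_mul_eq_one, ← gw_mul, inv_mul_cancel, gw_one]

theorem tt_conj (k : ℤ) (w : Phi) : tt e ^ k * gw e w * (tt e ^ k)⁻¹ = gw e (sh k w) := by
  rw [tt_zpow]
  unfold gw
  rw [← act_cl, SemidirectProduct.inl_aut, ← map_inv]

theorem gw_eq_one {w : Phi} : gw e w = 1 ↔ w ∈ RR e := by
  unfold gw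
  rw [← cl_eq_one, ← map_one SemidirectProduct.inl]
  exact SemidirectProduct.inl_injective.eq_iff

theorem gw_rel {i : ℕ} (hi : i ∈ II e) (l : ℤ) : gw e (sh l (e.rel i)) = 1 := by
  rw [gw_eq_one]
  refine mem_RR_of e (p := l - e.D i) (q := l) ?_
  intro K _ f hf
  exact hf.rel i hi l le_rfl le_rfl

theorem exists_gw (x : GG e) : ∃ (w : Phi) (k : ℤ), x = gw e w * tt e ^ k := by
  obtain ⟨w, hw⟩ := QuotientGroup.mk'_surjective _ x.left
  refine ⟨w, Multiplicative.toAdd x.right, ?_⟩
  rw [tt_zpow, ofAdd_toAdd]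
  unfold gw cl
  rw [hw, SemidirectProduct.inl_left_mul_inr_right]

/-- nontrivial elements of the kernel are conjugate to a letter -/
theorem conj_kernel {w : Phi} (hw : w ∉ RR e) : IsConj (gw e w) (gw e (FreeGroup.of (0, 0))) := by
  obtain ⟨i, hn, k, hk⟩ := e.surj w 0
  have hwi : e.w i ∉ RR e := by rwa [← hk, sh_mem_RR_iff]
  have hi : i ∈ II e := by
    rw [mem_II]
    right
    intro h
    exact hwi (mem_RR_of e h)
  have hrel := gw_rel e hi 0
  rw [sh_zero] at hrel
  have h1 : e.rel i = (eW i 0 * eW i (-(e.D i : ℤ))) * e.w i *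
      (eW i 0 * eW i (-(e.D i : ℤ)))⁻¹ * (FreeGroup.of (-1, 0))⁻¹ := by
    unfold Enum.rel
    rw [if_pos hn]
  rw [h1, gw_mul, gw_mul, gw_mul, gw_inv, gw_inv, mul_inv_eq_one] at hrel
  have c1 : IsConj (gw e w) (gw e (e.w i)) := by
    rw [← hk, ← tt_conj]
    exact isConj_iff.2 ⟨_, rfl⟩
  have c2 : IsConj (gw e (e.w i)) (gw e (FreeGroup.of (-1, 0))) :=
    isConj_iff.2 ⟨_, hrel⟩
  have c3 : IsConj (gw e (FreeGroup.of (-1, 0))) (gw e (FreeGroup.of (0, 0))) := by
    have := tt_conj e 1 (FreeGroup.of (-1, 0))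
    rw [sh_of, show (-1 : ℤ) + 1 = 0 by norm_num] at this
    exact isConj_iff.2 ⟨_, this⟩
  exact (c1.trans c2).trans c3

/-- the cosets of the kernel are conjugacy classes, positive case -/
theorem conj_coset_pos (w : Phi) (m : ℕ) (hm : m ≠ 0) :
    IsConj (gw e w * tt e ^ (m : ℤ)) (tt e ^ (m : ℤ)) := by
  obtain ⟨i, hn, k, hk⟩ := e.surj w m
  have hi : i ∈ II e := by
    rw [mem_II]
    left
    rw [hn]
    exact hm
  have hrel := gw_rel e hi 0
  rw [sh_zero] at hrel
  have h1 : e.rel i = eW i 0 * (eW i (-(m : ℤ)) * eW i (-(e.D i : ℤ)) * e.w i *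
      (eW i (-(e.D i : ℤ) + m))⁻¹)⁻¹ := by
    unfold Enum.rel
    rw [if_neg (by rw [hn]; exact hm), hn]
  rw [h1, gw_mul, gw_inv, mul_inv_eq_one, gw_mul, gw_mul, gw_mul, gw_inv] at hrel
  have c1 : IsConj (gw e w * tt e ^ (m : ℤ)) (gw e (e.w i) * tt e ^ (m : ℤ)) := by
    rw [← hk, ← tt_conj]
    refine isConj_iff.2 ⟨tt e ^ k, ?_⟩
    have : tt e ^ (m : ℤ) * (tt e ^ k)⁻¹ = (tt e ^ k)⁻¹ * tt e ^ (m : ℤ) := by
      rw [← zpow_neg, ← zpow_add, ← zpow_add, add_comm]
    rw [mul_assoc (tt e ^ k * gw e w), ← this]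
    simp only [mul_assoc]
  have c2 : IsConj (gw e (e.w i) * tt e ^ (m : ℤ)) (tt e ^ (m : ℤ)) := by
    refine isConj_iff.2 ⟨gw e (eW i (-(m : ℤ))) * gw e (eW i (-(e.D i : ℤ))), ?_⟩
    have e1 : gw e (eW i 0) = tt e ^ (m : ℤ) * gw e (eW i (-(m : ℤ))) * (tt e ^ (m : ℤ))⁻¹ := by
      rw [tt_conj, sh_eW, show -(m : ℤ) + m = 0 by omega]
    have e2 : gw e (eW i (-(e.D i : ℤ) + m)) =
        tt e ^ (m : ℤ) * gw e (eW i (-(e.D i : ℤ))) * (tt e ^ (m : ℤ))⁻¹ := by
      rw [tt_conj, sh_eW]
    rw [e1, e2] at hrel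
    generalize tt e ^ (m : ℤ) = T at *
    generalize gw e (eW i (-(m : ℤ))) = X at *
    generalize gw e (eW i (-(e.D i : ℤ))) = Y at *
    generalize gw e (e.w i) = W at *
    have h3 : X * Y * W = T * X * T⁻¹ * (T * Y * T⁻¹) := by
      rw [hrel]
      group
    calc X * Y * (W * T) * (X * Y)⁻¹ = (X * Y * W) * T * (X * Y)⁻¹ := by group
      _ = T * X * T⁻¹ * (T * Y * T⁻¹) * T * (X * Y)⁻¹ := by rw [h3]
      _ = T := by group
  exact c1.trans c2

theorem conj_coset (w : Phi) (n : ℤ) (hn : n ≠ 0) :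
    IsConj (gw e w * tt e ^ n) (tt e ^ n) := by
  rcases lt_or_gt_of_ne hn with h | h
  · have h1 : gw e w * tt e ^ n = (gw e (sh (-n) w⁻¹) * tt e ^ (-n))⁻¹ := by
      rw [← tt_conj, gw_inv]
      generalize gw e w = X
      rw [zpow_neg]
      generalize tt e ^ n = T
      group
    have h2 : tt e ^ n = (tt e ^ (-n))⁻¹ := by
      rw [zpow_neg, inv_inv]
    have h3 := conj_coset_pos e (sh (-n) w⁻¹) (-n).toNat (by omega)
    rw [show (((-n).toNat : ℕ) : ℤ) = -n by omega] at h3
    rw [h1, h2]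
    obtain ⟨c, hc⟩ := isConj_iff.1 h3
    refine isConj_iff.2 ⟨c, ?_⟩
    rw [← conj_inv, hc]
  · have h3 := conj_coset_pos e w n.toNat (by omega)
    rwa [show ((n.toNat : ℕ) : ℤ) = n by omega] at h3

theorem lev_mem_RR {v : FreeGroup (Fin 3)} (h : lev 0 v ∈ RR e) : FreeGroup.lift e.tB v = 1 := by
  obtain ⟨n, hn⟩ := h
  by_contra hv
  exact (allGood e (p := -(n : ℤ)) (q := n) (by omega)).f_ne 0 (by omega) (by omega) v hv hn

/-- the kernel is torsion-free -/
theorem NN_tf : TF (NN e) := by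
  intro x hx hfin
  obtain ⟨w, rfl⟩ := QuotientGroup.mk'_surjective _ x
  obtain ⟨n, hn, hp⟩ := isOfFinOrder_iff_pow_eq_one.1 hfin
  apply hx
  rw [← map_pow] at hp
  have h1 : w ^ n ∈ RR e := (cl_eq_one e).1 hp
  obtain ⟨m, hm⟩ := h1
  refine (cl_eq_one e).2 ⟨m, ?_⟩
  intro K _ f hf
  by_contra hne
  have h1 := hm K f hf
  rw [map_pow] at h1
  exact hf.tf _ hne (isOfFinOrder_iff_pow_eq_one.2 ⟨n, hn, h1⟩)

/-- the whole group is torsion-free -/
theorem GG_tf : TF (GG e) := by
  intro x hx hfin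
  have h1 : IsOfFinOrder (SemidirectProduct.rightHom x) :=
    MonoidHom.isOfFinOrder _ hfin
  have h2 : SemidirectProduct.rightHom x = (1 : Multiplicative ℤ) := by
    by_contra hne
    obtain ⟨n, hn, hp⟩ := isOfFinOrder_iff_pow_eq_one.1 h1
    have h3 : (n : ℤ) * Multiplicative.toAdd (SemidirectProduct.rightHom x) = 0 := by
      have := congrArg Multiplicative.toAdd hp
      simpa using this
    rcases mul_eq_zero.1 h3 with h4 | h4
    · omega
    · exact hne (Multiplicative.toAdd.injective h4)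
  have h3 : x = SemidirectProduct.inl x.left := by
    apply SemidirectProduct.ext
    · simp
    · simpa using h2
  rw [h3] at hx hfin
  have h4 : IsOfFinOrder x.left := by
    obtain ⟨n, hn, hp⟩ := isOfFinOrder_iff_pow_eq_one.1 hfin
    refine isOfFinOrder_iff_pow_eq_one.2 ⟨n, hn, ?_⟩
    rw [← map_pow, ← map_one SemidirectProduct.inl] at hp
    exact SemidirectProduct.inl_injective hp
  exact NN_tf e _ (fun h => hx (by rw [h, map_one])) h4

/-- The group: finitely generated and torsion-free, containing the given group, with a homomorphism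
onto the integers whose kernel has only one nontrivial conjugacy class in the group, and such that
all other cosets of the kernel are conjugacy classes. -/
theorem exists_group {H : Type} [Group H] [Countable H] (tfH : TF H) :
    ∃ (G : Type) (_ : Group G) (τ : G →* Multiplicative ℤ) (a b c t : G),
    TF G ∧ (∃ f : H →* G, Function.Injective f) ∧
    τ a = 1 ∧ τ b = 1 ∧ τ c = 1 ∧ τ t = Multiplicative.ofAdd 1 ∧
    Subgroup.closure {a, b, c, t} = ⊤ ∧
    (∃ (B : Type) (_ : Group B) (tB : Fin 3 → B),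
      (∀ v : FreeGroup (Fin 3), FreeGroup.lift ![a, b, c] v = 1 → FreeGroup.lift tB v = 1) ∧
      (∃ F : FreeGroup Bool →* B, Function.Injective F ∧ F (FreeGroup.of true) = tB 0 ∧
          F (FreeGroup.of false) = tB 1) ∧
      ∃ χ : B →* Multiplicative ℤ, χ (tB 0) = 1 ∧ χ (tB 1) = 1 ∧
        χ (tB 2) = Multiplicative.ofAdd 1) ∧
    (∀ g, τ g = 1 → g ≠ 1 → IsConj g a) ∧
    (∀ (g : G) (n : ℤ), n ≠ 0 → τ g = Multiplicative.ofAdd n → IsConj g (t ^ n)) := by
  obtain ⟨hh, hsurj⟩ := exists_surjective_nat H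
  obtain ⟨B, _, -, jH, -, hjH, tfB, a, b, c, -, habc, hF, hχ⟩ :=
    univ_ext2 tfH (free_tf PEmpty.{1}) (fun _ => 1) hh
  have hov : ∀ v : FreeGroup ℕ, FreeGroup.lift (fun i => E (2 * i + 1) a b c) v =
      jH (FreeGroup.lift hh v) := by
    intro v
    have : FreeGroup.lift (fun i => E (2 * i + 1) a b c) = jH.comp (FreeGroup.lift hh) := by
      apply FreeGroup.ext_hom
      intro i
      simp [habc]
    exact DFunLike.congr_fun this v
  have ha1 : a ≠ 1 := by
    intro h
    obtain ⟨F, hFi, hFa, -⟩ := hF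
    rw [h] at hFa
    exact FreeGroup.of_ne_one _ (hFi (hFa.trans (map_one F).symm))
  obtain ⟨e, hehh, heB⟩ := exists_enum hh tfH B ![a, b, c] tfB ha1 (fun v hv => by
    have := hov v
    rw [hv, map_one] at this
    exact this)
  have hτ : ∀ (w : Phi) (k : ℤ),
      (SemidirectProduct.rightHom : GG e →* Multiplicative ℤ) (gw e w * tt e ^ k) =
        Multiplicative.ofAdd k := by
    intro w k
    rw [tt_zpow]
    unfold gw
    simp
  let gwh : Phi →* GG e := ⟨⟨gw e, gw_one e⟩, gw_mul e⟩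
  refine ⟨GG e, inferInstance, SemidirectProduct.rightHom, gw e (FreeGroup.of (0, 0)),
    gw e (FreeGroup.of (0, 1)), gw e (FreeGroup.of (0, 2)), tt e, GG_tf e, ?_, ?_, ?_, ?_, ?_, ?_,
    ?_, ?_, ?_⟩
  · -- the embedding
    have hs : Function.Surjective (FreeGroup.lift hh) := by
      intro h
      obtain ⟨i, rfl⟩ := hsurj h
      exact ⟨FreeGroup.of i, by simp⟩
    let Ψ : FreeGroup ℕ →* GG e := gwh.comp (FreeGroup.lift (fun i => oW i 0))
    have hlev : ∀ v : FreeGroup ℕ, FreeGroup.lift (fun i => oW i 0) v =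
        lev 0 (FreeGroup.lift (fun i => E (2 * i + 1) (FreeGroup.of 0) (FreeGroup.of 1)
          (FreeGroup.of 2)) v) := by
      intro v
      have : FreeGroup.lift (fun i => oW i 0) = (lev 0).comp (FreeGroup.lift
          (fun i => E (2 * i + 1) (FreeGroup.of 0) (FreeGroup.of 1) (FreeGroup.of 2))) := by
        apply FreeGroup.ext_hom
        intro i
        simp [oW, lev, map_E]
      exact DFunLike.congr_fun this v
    have hk1 : ∀ v, FreeGroup.lift hh v = 1 → Ψ v = 1 := by
      intro v hv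
      refine (gw_eq_one e).2 ⟨0, ?_⟩
      intro K _ f hf
      rw [lift_lift_oW]
      exact hf.hr v (by rw [hehh]; exact hv) 0 (by simp) (by simp)
    have hk2 : ∀ v, Ψ v = 1 → FreeGroup.lift hh v = 1 := by
      intro v hv
      have h1 : FreeGroup.lift (fun i => oW i 0) v ∈ RR e := (gw_eq_one e).1 hv
      rw [hlev] at h1
      have h2 := heB _ (lev_mem_RR e h1)
      have h3 : FreeGroup.lift ![a, b, c] (FreeGroup.lift (fun i => E (2 * i + 1)
          (FreeGroup.of 0) (FreeGroup.of 1) (FreeGroup.of 2)) v) =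
          FreeGroup.lift (fun i => E (2 * i + 1) a b c) v := by
        have : (FreeGroup.lift ![a, b, c]).comp (FreeGroup.lift (fun i => E (2 * i + 1)
          (FreeGroup.of 0) (FreeGroup.of 1) (FreeGroup.of 2))) =
          FreeGroup.lift (fun i => E (2 * i + 1) a b c) := by
          apply FreeGroup.ext_hom
          intro i
          simp [map_E]
        exact DFunLike.congr_fun this v
      rw [h3, hov] at h2
      exact hjH (h2.trans (map_one jH).symm)
    let f : H →* GG e := (FreeGroup.lift hh).liftOfSurjective hs ⟨Ψ, fun v hv => hk1 v hv⟩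
    have hf : ∀ v, f (FreeGroup.lift hh v) = Ψ v := fun v =>
      MonoidHom.liftOfRightInverse_comp_apply _ _ _ _ _
    refine ⟨f, ?_⟩
    rw [injective_iff_map_eq_one]
    intro h hh1
    obtain ⟨v, rfl⟩ := hs h
    rw [hf] at hh1
    exact hk2 v hh1
  · simp [gw]
  · simp [gw]
  · simp [gw]
  · simp [tt]
  · rw [eq_top_iff]
    rintro x -
    obtain ⟨w, k, rfl⟩ := exists_gw e x
    set H := Subgroup.closure {gw e (FreeGroup.of (0, 0)), gw e (FreeGroup.of (0, 1)),
      gw e (FreeGroup.of (0, 2)), tt e} with hH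
    have ht : tt e ∈ H := Subgroup.subset_closure (by simp)
    have hl : ∀ c : Fin 3, gw e (FreeGroup.of (0, c)) ∈ H := by
      intro c
      apply Subgroup.subset_closure
      fin_cases c <;> simp
    refine H.mul_mem ?_ (H.zpow_mem ht k)
    induction w using FreeGroup.induction_on with
    | C1 => rw [gw_one]; exact H.one_mem
    | of x =>
      obtain ⟨l, c⟩ := x
      have h1 := tt_conj e l (FreeGroup.of (0, c))
      rw [sh_of, zero_add] at h1
      show gw e (FreeGroup.of (l, c)) ∈ H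
      rw [← h1]
      exact H.mul_mem (H.mul_mem (H.zpow_mem ht l) (hl c)) (H.inv_mem (H.zpow_mem ht l))
    | inv_of x h => rw [gw_inv]; exact H.inv_mem h
    | mul x y hx hy => rw [gw_mul]; exact H.mul_mem hx hy
  · refine ⟨B, inferInstance, ![a, b, c], ?_, hF, hχ⟩
    intro v hv
    apply heB
    apply lev_mem_RR e
    rw [← gw_eq_one]
    have h1 : gwh.comp (lev 0) = FreeGroup.lift ![gw e (FreeGroup.of (0, 0)),
        gw e (FreeGroup.of (0, 1)), gw e (FreeGroup.of (0, 2))] := by
      apply FreeGroup.ext_hom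
      intro c
      rw [FreeGroup.lift_apply_of]
      show gw e (lev 0 (FreeGroup.of c)) = _
      unfold lev
      rw [FreeGroup.map.of]
      fin_cases c <;> rfl
    have h2 := DFunLike.congr_fun h1 v
    rw [hv] at h2
    exact h2
  · intro g hg hne
    obtain ⟨w, k, rfl⟩ := exists_gw e g
    rw [hτ] at hg
    have hk : k = 0 := by simpa using hg
    subst hk
    rw [zpow_zero, mul_one] at hne ⊢
    exact conj_kernel e (fun h => hne ((gw_eq_one e).2 h))
  · intro g n hn hg
    obtain ⟨w, k, rfl⟩ := exists_gw e g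
    rw [hτ] at hg
    have hk : k = n := by simpa using hg
    subst hk
    exact conj_coset e w k hn

end Pool.Agent.KS6_1.SLH
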