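import Pool.Graph.R_pool_sql_team_seeded_b3bd081e.H397R3.Tf
set_option autoImplicit false

/-!
Levelled words, shift, relations and models on windows of levels.
-/

namespace Pool.Agent.KS6_1.SLH

open Pool.Agent.H397R3 (TF conj_ext_many E map_E prod_tf free_tf free_conj_inj hnn_tf)

/-- every sequence of elements of a torsion-free group is the sequence of values of the
universal words in a torsion-free overgroup. -/
theorem univ_ext' {K : Type} [Group K] (tf : TF K) (v : ℕ → K) :
    ∃ (K' : Type) (_ : Group K') (j : K →* K'), Function.Injective j ∧ TF K' ∧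
      ∃ a b c : K', (∀ i, E i a b c = j (v i)) ∧
        (∃ F : FreeGroup Bool →* K', Function.Injective F ∧ F (FreeGroup.of true) = a ∧
          F (FreeGroup.of false) = b) ∧
        ∃ χ : K' →* Multiplicative ℤ, χ a = 1 ∧ χ b = 1 ∧ χ c = Multiplicative.ofAdd 1 := by
  let a0 : FreeGroup Bool := FreeGroup.of true
  let b0 : FreeGroup Bool := FreeGroup.of false
  let α : FreeGroup ℕ →* K × FreeGroup Bool :=
    FreeGroup.lift (fun i : ℕ => ((1 : K), a0 ^ i * b0 * (a0 ^ i)⁻¹))
  let β : FreeGroup ℕ →* K × FreeGroup Bool :=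
    FreeGroup.lift (fun i : ℕ => (v i, b0 ^ i * a0 * (b0 ^ i)⁻¹))
  have hα : Function.Injective α := by
    have h : (MonoidHom.snd K (FreeGroup Bool)).comp α =
        FreeGroup.lift (fun i : ℕ => a0 ^ i * b0 * (a0 ^ i)⁻¹) := by
      apply FreeGroup.ext_hom
      intro i
      simp [α]
    have h2 := free_conj_inj true false (by simp)
    rw [← h, MonoidHom.coe_comp] at h2
    exact h2.of_comp
  have hβ : Function.Injective β := by
    have h : (MonoidHom.snd K (FreeGroup Bool)).comp β =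
        FreeGroup.lift (fun i : ℕ => b0 ^ i * a0 * (b0 ^ i)⁻¹) := by
      apply FreeGroup.ext_hom
      intro i
      simp [β]
    have h2 := free_conj_inj false true (by simp)
    rw [← h, MonoidHom.coe_comp] at h2
    exact h2.of_comp
  let φ : α.range ≃* β.range := (MonoidHom.ofInjective hα).symm.trans (MonoidHom.ofInjective hβ)
  have hφ : ∀ x : FreeGroup ℕ, ((φ ⟨α x, ⟨x, rfl⟩⟩ : β.range) : K × FreeGroup Bool) = β x := by
    intro x
    have h1 : (MonoidHom.ofInjective hα) x = ⟨α x, ⟨x, rfl⟩⟩ := by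
      apply Subtype.ext
      rfl
    simp only [φ, MulEquiv.trans_apply]
    rw [← h1, MulEquiv.symm_apply_apply]
    rfl
  refine ⟨HNNExtension (K × FreeGroup Bool) _ _ φ, inferInstance,
    HNNExtension.of.comp (MonoidHom.inl K (FreeGroup Bool)), ?_, ?_,
    HNNExtension.of (1, a0), HNNExtension.of (1, b0), HNNExtension.t, ?_,
    ⟨HNNExtension.of.comp (MonoidHom.inr K (FreeGroup Bool)), ?_, rfl, rfl⟩,
    HNNExtension.lift 1 (Multiplicative.ofAdd 1) (fun x => by simp), by simp, by simp, by simp⟩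
  · rw [MonoidHom.coe_comp]
    refine (HNNExtension.of_injective φ).comp ?_
    intro x y hxy
    simpa using hxy
  · exact hnn_tf φ (prod_tf tf (free_tf Bool))
  · intro i
    have h := HNNExtension.equiv_eq_conj (φ := φ) ⟨α (FreeGroup.of i), ⟨_, rfl⟩⟩
    rw [hφ] at h
    have e1 : α (FreeGroup.of i) = ((1 : K), a0) ^ i * ((1 : K), b0) * (((1 : K), a0) ^ i)⁻¹ := by
      simp [α]
    have e2 : β (FreeGroup.of i) = (((1 : K), b0) ^ i * ((1 : K), a0) * (((1 : K), b0) ^ i)⁻¹)
        * (v i, 1) := by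
      simp [β]
    simp only at h
    rw [e1, e2] at h
    unfold E
    have h3 : (HNNExtension.t : HNNExtension (K × FreeGroup Bool) _ _ φ) *
        (HNNExtension.of ((1 : K), a0) ^ i * HNNExtension.of ((1 : K), b0) *
          (HNNExtension.of ((1 : K), a0) ^ i)⁻¹) * HNNExtension.t⁻¹ =
        HNNExtension.of (((1 : K), b0) ^ i * ((1 : K), a0) * (((1 : K), b0) ^ i)⁻¹ * (v i, 1)) := by
      rw [h]
      simp only [map_mul, map_inv, map_pow]
    rw [h3]
    simp only [map_mul, map_inv, map_pow, MonoidHom.comp_apply, MonoidHom.inl_apply]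
    group
  · rw [MonoidHom.coe_comp]
    refine (HNNExtension.of_injective φ).comp ?_
    intro x y hxy
    simpa using hxy


/-- every sequence of elements of a torsion-free group, together with a sequence of elements of
another torsion-free group, is the sequence of values of the universal words. -/
theorem univ_ext2 {H K : Type} [Group H] [Group K] (tfH : TF H) (tf : TF K) (v : ℕ → K)
    (hh : ℕ → H) :
    ∃ (K' : Type) (_ : Group K') (j : K →* K') (jH : H →* K'), Function.Injective j ∧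
      Function.Injective jH ∧ TF K' ∧
      ∃ a b c : K', (∀ i, E (2 * i) a b c = j (v i)) ∧
        (∀ i, E (2 * i + 1) a b c = jH (hh i)) ∧
        (∃ F : FreeGroup Bool →* K', Function.Injective F ∧ F (FreeGroup.of true) = a ∧
          F (FreeGroup.of false) = b) ∧
        ∃ χ : K' →* Multiplicative ℤ, χ a = 1 ∧ χ b = 1 ∧ χ c = Multiplicative.ofAdd 1 := by
  obtain ⟨K', _, j, hj, htf, a, b, c, habc, hF, hχ⟩ := univ_ext' (prod_tf tf tfH)
    (fun n => if n % 2 = 0 then (v (n / 2), (1 : H)) else ((1 : K), hh (n / 2)))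
  refine ⟨K', inferInstance, j.comp (MonoidHom.inl K H), j.comp (MonoidHom.inr K H), ?_, ?_, htf,
    a, b, c, ?_, ?_, hF, hχ⟩
  · rw [MonoidHom.coe_comp]
    refine hj.comp ?_
    intro x y hxy
    simpa using hxy
  · rw [MonoidHom.coe_comp]
    refine hj.comp ?_
    intro x y hxy
    simpa using hxy
  · intro i
    rw [habc]
    simp
  · intro i
    rw [habc]
    have h1 : (2 * i + 1) % 2 ≠ 0 := by omega
    have h2 : (2 * i + 1) / 2 = i := by omega
    simp [h1, h2]

/-- letters: a level and one of three letters `a, b, c` -/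
abbrev Lt := ℤ × Fin 3
/-- levelled words -/
abbrev Phi := FreeGroup Lt

/-- the shift of levels by `k` -/
def sh (k : ℤ) : Phi →* Phi := FreeGroup.map (fun x : Lt => ((x.1 + k, x.2) : Lt))

@[simp] theorem sh_of (k l : ℤ) (c : Fin 3) :
    sh k (FreeGroup.of (l, c)) = FreeGroup.of (l + k, c) := by
  simp [sh]

theorem sh_sh (k l : ℤ) (w : Phi) : sh k (sh l w) = sh (l + k) w := by
  have : (sh k).comp (sh l) = sh (l + k) := by
    apply FreeGroup.ext_hom
    rintro ⟨m, c⟩
    simp [add_assoc]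
  exact DFunLike.congr_fun this w

theorem sh_zero (w : Phi) : sh 0 w = w := by
  have : sh 0 = MonoidHom.id Phi := by
    apply FreeGroup.ext_hom
    rintro ⟨m, c⟩
    simp
  exact DFunLike.congr_fun this w

theorem lift_sh {K : Type} [Group K] (f : Lt → K) (k : ℤ) (w : Phi) :
    FreeGroup.lift f (sh k w) = FreeGroup.lift (fun x : Lt => f (x.1 + k, x.2)) w := by
  have : (FreeGroup.lift f).comp (sh k) = FreeGroup.lift (fun x : Lt => f (x.1 + k, x.2)) := by
    apply FreeGroup.ext_hom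
    rintro ⟨m, c⟩
    simp
  exact DFunLike.congr_fun this w

/-- words with letters of levels between `p` and `q` -/
def Supp (p q : ℤ) (w : Phi) : Prop :=
  w ∈ Subgroup.closure {x : Phi | ∃ l c, p ≤ l ∧ l ≤ q ∧ x = FreeGroup.of (l, c)}

theorem Supp.of {p q l : ℤ} (c : Fin 3) (h1 : p ≤ l) (h2 : l ≤ q) :
    Supp p q (FreeGroup.of (l, c)) :=
  Subgroup.subset_closure ⟨l, c, h1, h2, rfl⟩

theorem Supp.mul {p q : ℤ} {v w : Phi} (hv : Supp p q v) (hw : Supp p q w) : Supp p q (v * w) :=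
  Subgroup.mul_mem _ hv hw

theorem Supp.inv {p q : ℤ} {v : Phi} (hv : Supp p q v) : Supp p q v⁻¹ :=
  Subgroup.inv_mem _ hv

theorem Supp.pow {p q : ℤ} {v : Phi} (hv : Supp p q v) (n : ℕ) : Supp p q (v ^ n) :=
  Subgroup.pow_mem _ hv n

theorem Supp.mono {p q p' q' : ℤ} {w : Phi} (h : Supp p q w) (h1 : p' ≤ p) (h2 : q ≤ q') :
    Supp p' q' w := by
  refine Subgroup.closure_mono ?_ h
  rintro x ⟨l, c, hl, hl', rfl⟩
  exact ⟨l, c, h1.trans hl, hl'.trans h2, rfl⟩

theorem Supp.sh {p q : ℤ} {w : Phi} (h : Supp p q w) (k : ℤ) :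
    Supp (p + k) (q + k) (sh k w) := by
  have h1 : Subgroup.closure {x : Phi | ∃ l c, p ≤ l ∧ l ≤ q ∧ x = FreeGroup.of (l, c)} ≤
      (Subgroup.closure {x : Phi | ∃ l c, p + k ≤ l ∧ l ≤ q + k ∧ x = FreeGroup.of (l, c)}).comap
        (SLH.sh k) := by
    rw [Subgroup.closure_le]
    rintro x ⟨l, c, hl, hl', rfl⟩
    refine Subgroup.subset_closure ⟨l + k, c, by omega, by omega, ?_⟩
    simp
  exact h1 h

theorem Supp.lift_eq {K K' : Type} [Group K] [Group K'] {p q : ℤ} {w : Phi} (h : Supp p q w)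
    (f : Lt → K) (f' : Lt → K') (j : K →* K')
    (hf : ∀ l c, p ≤ l → l ≤ q → f' (l, c) = j (f (l, c))) :
    FreeGroup.lift f' w = j (FreeGroup.lift f w) := by
  have : Set.EqOn (FreeGroup.lift f') (j.comp (FreeGroup.lift f))
      {x : Phi | ∃ l c, p ≤ l ∧ l ≤ q ∧ x = FreeGroup.of (l, c)} := by
    rintro x ⟨l, c, hl, hl', rfl⟩
    simp [hf l c hl hl']
  exact MonoidHom.eqOn_closure this h

theorem exists_supp (w : Phi) : ∃ m : ℕ, Supp (-m) m w := by
  induction w using FreeGroup.induction_on with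
  | C1 => exact ⟨0, Subgroup.one_mem _⟩
  | of x =>
    obtain ⟨l, c⟩ := x
    exact ⟨l.natAbs, Supp.of c (by omega) (by omega)⟩
  | inv_of x h =>
    obtain ⟨m, hm⟩ := h
    exact ⟨m, hm.inv⟩
  | mul x y hx hy =>
    obtain ⟨m, hm⟩ := hx
    obtain ⟨n, hn⟩ := hy
    exact ⟨max m n, (hm.mono (by push_cast; omega) (by push_cast; omega)).mul
      (hn.mono (by push_cast; omega) (by push_cast; omega))⟩

/-- the universal word number `i` at level `l` -/
def eW (i : ℕ) (l : ℤ) : Phi := E (2 * i) (FreeGroup.of (l, 0)) (FreeGroup.of (l, 1)) (FreeGroup.of (l, 2))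

/-- the value of the universal word number `i` at level `l` -/
def ev {K : Type} [Group K] (f : Lt → K) (i : ℕ) (l : ℤ) : K :=
  E (2 * i) (f (l, 0)) (f (l, 1)) (f (l, 2))

/-- the odd universal word number `i` at level `l` -/
def oW (i : ℕ) (l : ℤ) : Phi :=
  E (2 * i + 1) (FreeGroup.of (l, 0)) (FreeGroup.of (l, 1)) (FreeGroup.of (l, 2))

/-- the value of the odd universal word number `i` at level `l` -/
def ov {K : Type} [Group K] (f : Lt → K) (l : ℤ) (i : ℕ) : K :=
  E (2 * i + 1) (f (l, 0)) (f (l, 1)) (f (l, 2))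

theorem lift_oW {K : Type} [Group K] (f : Lt → K) (i : ℕ) (l : ℤ) :
    FreeGroup.lift f (oW i l) = ov f l i := by
  simp [oW, ov, map_E]

theorem lift_lift_oW {K : Type} [Group K] (f : Lt → K) (l : ℤ) (v : FreeGroup ℕ) :
    FreeGroup.lift f (FreeGroup.lift (fun i => oW i l) v) = FreeGroup.lift (ov f l) v := by
  have : (FreeGroup.lift f).comp (FreeGroup.lift (fun i => oW i l)) = FreeGroup.lift (ov f l) := by
    apply FreeGroup.ext_hom
    intro i
    simp [lift_oW]
  exact DFunLike.congr_fun this v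

theorem lift_ov_map {K K' : Type} [Group K] [Group K'] (j : K →* K') (f : Lt → K) (f' : Lt → K')
    (l : ℤ) (hf : ∀ c, f' (l, c) = j (f (l, c))) (v : FreeGroup ℕ) :
    FreeGroup.lift (ov f' l) v = j (FreeGroup.lift (ov f l) v) := by
  have : FreeGroup.lift (ov f' l) = j.comp (FreeGroup.lift (ov f l)) := by
    apply FreeGroup.ext_hom
    intro i
    simp [ov, hf, map_E]
  exact DFunLike.congr_fun this v

theorem lift_eW {K : Type} [Group K] (f : Lt → K) (i : ℕ) (l : ℤ) :
    FreeGroup.lift f (eW i l) = ev f i l := by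
  simp [eW, ev, map_E]

theorem sh_eW (k : ℤ) (i : ℕ) (l : ℤ) : sh k (eW i l) = eW i (l + k) := by
  simp [eW, map_E]

theorem supp_eW (i : ℕ) (l : ℤ) : Supp l l (eW i l) := by
  unfold eW E
  have h0 : Supp l l (FreeGroup.of (l, 0)) := Supp.of 0 le_rfl le_rfl
  have h1 : Supp l l (FreeGroup.of (l, 1)) := Supp.of 1 le_rfl le_rfl
  have h2 : Supp l l (FreeGroup.of (l, 2)) := Supp.of 2 le_rfl le_rfl
  exact (((h1.pow _).mul h0).mul (h1.pow _).inv).inv.mul
    ((h2.mul (((h0.pow _).mul h1).mul (h0.pow _).inv)).mul h2.inv)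

/-- An enumeration of the data of the relations, the group to be embedded, and the base. -/
structure Enum (H : Type) [Group H] : Type 1 where
  hh : ℕ → H
  tfH : TF H
  B : Type
  grp : Group B
  tB : Fin 3 → B
  tfB : TF B
  t0 : tB 0 ≠ 1
  hB : ∀ v : FreeGroup ℕ, FreeGroup.lift hh v = 1 →
    FreeGroup.lift (fun i => E (2 * i + 1) (tB 0) (tB 1) (tB 2)) v = 1
  w : ℕ → Phi
  n : ℕ → ℕ
  D : ℕ → ℕ
  two_le : ∀ i, 2 ≤ D i
  n_lt : ∀ i, n i < D i
  supp : ∀ i, Supp (1 - D i) (-1) (w i)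
  mono : StrictMono D
  surj : ∀ (x : Phi) (m : ℕ), ∃ i, n i = m ∧ ∃ k : ℤ, sh k x = w i

attribute [instance] Enum.grp

theorem exists_enum {H : Type} [Group H] (hh : ℕ → H) (tfH : TF H) (B : Type) [grp : Group B]
    (tB : Fin 3 → B) (tfB : TF B) (t0 : tB 0 ≠ 1)
    (hB : ∀ v : FreeGroup ℕ, FreeGroup.lift hh v = 1 →
      FreeGroup.lift (fun i => E (2 * i + 1) (tB 0) (tB 1) (tB 2)) v = 1) :
    ∃ e : Enum H, e.hh = hh ∧ ∀ v : FreeGroup (Fin 3), FreeGroup.lift e.tB v = 1 →
      FreeGroup.lift tB v = 1 := by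
  classical
  obtain ⟨g, hg⟩ := exists_surjective_nat (Phi × ℕ)
  choose m hm using exists_supp
  let mm : ℕ → ℕ := fun i => m (g i).1
  let D : ℕ → ℕ := fun i => ∑ j ∈ Finset.range (i + 1), (2 * mm j + (g j).2 + 3)
  have hD : ∀ i, 2 * mm i + (g i).2 + 3 ≤ D i := by
    intro i
    exact Finset.single_le_sum (f := fun j => 2 * mm j + (g j).2 + 3) (fun _ _ => Nat.zero_le _)
      (Finset.mem_range.2 (Nat.lt_succ_self i))
  refine ⟨⟨hh, tfH, B, grp, tB, tfB, t0, hB, fun i => sh (-(mm i + 1)) (g i).1,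
    fun i => (g i).2, D, ?_, ?_, ?_, ?_, ?_⟩, rfl, fun _ h => h⟩
  · intro i; have := hD i; omega
  · intro i; have := hD i; omega
  · intro i
    have := hD i
    refine ((hm (g i).1).sh (-(mm i + 1))).mono ?_ ?_
    · show (1 : ℤ) - (D i : ℤ) ≤ -(m (g i).1 : ℤ) + -((mm i : ℤ) + 1)
      have h1 : mm i = m (g i).1 := rfl
      omega
    · show ((m (g i).1 : ℕ) : ℤ) + -((mm i : ℤ) + 1) ≤ -1
      have h1 : mm i = m (g i).1 := rfl
      omega
  · apply strictMono_nat_of_lt_succ
    intro i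
    show D i < D (i + 1)
    have : D (i + 1) = D i + (2 * mm (i + 1) + (g (i + 1)).2 + 3) := Finset.sum_range_succ _ _
    omega
  · intro x k
    obtain ⟨i, hi⟩ := hg (x, k)
    exact ⟨i, by rw [hi], -(mm i + 1), by rw [hi]⟩

variable {H : Type} [Group H] (e : Enum H)

/-- the relation number `i` -/
def Enum.rel (i : ℕ) : Phi :=
  if e.n i = 0 then
    (eW i 0 * eW i (-(e.D i : ℤ))) * e.w i * (eW i 0 * eW i (-(e.D i : ℤ)))⁻¹ *
      (FreeGroup.of (-1, 0))⁻¹
  else eW i 0 * (eW i (-(e.n i : ℤ)) * eW i (-(e.D i : ℤ)) * e.w i *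
    (eW i (-(e.D i : ℤ) + e.n i))⁻¹)⁻¹

theorem lift_rel_zero {K : Type} [Group K] (f : Lt → K) (i : ℕ) (l : ℤ) (h : e.n i = 0) :
    FreeGroup.lift f (sh l (e.rel i)) =
      (ev f i l * ev f i (l - e.D i)) * FreeGroup.lift f (sh l (e.w i)) *
        (ev f i l * ev f i (l - e.D i))⁻¹ * (f (l - 1, 0))⁻¹ := by
  simp only [Enum.rel, h, if_true, map_mul, map_inv, sh_eW, lift_eW, sh_of,
    FreeGroup.lift_apply_of]
  rw [show (0 : ℤ) + l = l by omega, show -(e.D i : ℤ) + l = l - e.D i by omega,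
    show (-1 : ℤ) + l = l - 1 by omega]

theorem lift_rel_pos {K : Type} [Group K] (f : Lt → K) (i : ℕ) (l : ℤ) (h : e.n i ≠ 0) :
    FreeGroup.lift f (sh l (e.rel i)) =
      ev f i l * (ev f i (l - e.n i) * ev f i (l - e.D i) * FreeGroup.lift f (sh l (e.w i)) *
        (ev f i (l - e.D i + e.n i))⁻¹)⁻¹ := by
  simp only [Enum.rel, h, if_false, map_mul, map_inv, sh_eW, lift_eW]
  rw [show (0 : ℤ) + l = l by omega, show -(e.D i : ℤ) + l = l - e.D i by omega,
    show -(e.n i : ℤ) + l = l - e.n i by omega,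
    show -(e.D i : ℤ) + (e.n i : ℤ) + l = l - e.D i + e.n i by omega]

theorem supp_rel (i : ℕ) : Supp (-(e.D i : ℤ)) 0 (e.rel i) := by
  have h2 := e.two_le i
  have h3 := e.n_lt i
  have hw : Supp (-(e.D i : ℤ)) 0 (e.w i) := (e.supp i).mono (by omega) (by omega)
  have h0 : Supp (-(e.D i : ℤ)) 0 (eW i 0) := (supp_eW i 0).mono (by omega) (by omega)
  have hD : Supp (-(e.D i : ℤ)) 0 (eW i (-(e.D i : ℤ))) :=
    (supp_eW i _).mono (by omega) (by omega)
  have hn : Supp (-(e.D i : ℤ)) 0 (eW i (-(e.n i : ℤ))) :=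
    (supp_eW i _).mono (by omega) (by omega)
  have hDn : Supp (-(e.D i : ℤ)) 0 (eW i (-(e.D i : ℤ) + e.n i)) :=
    (supp_eW i _).mono (by omega) (by omega)
  unfold Enum.rel
  split_ifs with h
  · exact (((h0.mul hD).mul hw).mul (h0.mul hD).inv).mul
      (Supp.of 0 (by omega) (by omega)).inv
  · exact h0.mul (((hn.mul hD).mul hw).mul hDn.inv).inv

/-- models of the relations with index in `S` on the window `[p, q]` of levels -/
structure Mod (S : Set ℕ) (p q : ℤ) (K : Type) [Group K] (f : Lt → K) : Prop where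
  tf : TF K
  rel : ∀ i ∈ S, ∀ l : ℤ, p ≤ l - e.D i → l ≤ q → FreeGroup.lift f (sh l (e.rel i)) = 1
  hr : ∀ v : FreeGroup ℕ, FreeGroup.lift e.hh v = 1 → ∀ l : ℤ, p ≤ l → l ≤ q →
    FreeGroup.lift (ov f l) v = 1

/-- good models: the elements to be conjugated are nontrivial -/
structure Good (S : Set ℕ) (p q : ℤ) (K : Type) [Group K] (f : Lt → K) : Prop extends
    Mod e S p q K f where
  w_ne : ∀ i ∈ S, e.n i = 0 → ∀ l : ℤ, p ≤ l - e.D i + 1 → l - 1 ≤ q →
    FreeGroup.lift f (sh l (e.w i)) ≠ 1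
  a_ne : ∀ l : ℤ, p ≤ l → l ≤ q → f (l, 0) ≠ 1

/-- extension of a good model by a new top level -/
theorem ext_top {S : Set ℕ} {p q : ℤ} (hpq : p ≤ q) {K : Type} [Group K] {f : Lt → K}
    (hG : Good e S p q K f) :
    ∃ (K' : Type) (_ : Group K') (j : K →* K') (f' : Lt → K'), Function.Injective j ∧
      Mod e S p (q + 1) K' f' ∧ ∀ l c, p ≤ l → l ≤ q → f' (l, c) = j (f (l, c)) := by
  classical
  have hDi : ∀ i, i ≤ e.D i := fun i => e.mono.le_apply
  obtain ⟨K1, _, j1, hj1, tf1, k, hk⟩ := conj_ext_many hG.tf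
    (fun i => FreeGroup.lift f (sh (q + 1) (e.w i))) (fun _ => f (q, 0))
    (fun i => i ∈ S ∧ e.n i = 0 ∧ p ≤ q + 1 - e.D i) (by
      rintro i ⟨hiS, hn, hp⟩
      exact ⟨hG.w_ne i hiS hn (q + 1) (by omega) (by omega), hG.a_ne q hpq le_rfl⟩)
    ((q + 1 - p).toNat + 1)
  obtain ⟨K2, _, j2, jH, hj2, -, tf2, a, b, c, habc, habo, -, -⟩ := univ_ext2 e.tfH tf1 (fun i =>
    if e.n i = 0 then k i * (j1 (ev f i (q + 1 - e.D i)))⁻¹
    else j1 (ev f i (q + 1 - e.n i) * ev f i (q + 1 - e.D i) *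
      FreeGroup.lift f (sh (q + 1) (e.w i)) * (ev f i (q + 1 - e.D i + e.n i))⁻¹)) e.hh
  let f' : Lt → K2 := fun x => if x.1 = q + 1 then ![a, b, c] x.2 else j2 (j1 (f x))
  have hf' : ∀ l c, p ≤ l → l ≤ q → f' (l, c) = (j2.comp j1) (f (l, c)) := by
    intro l c _ h2
    have : l ≠ q + 1 := by omega
    simp [f', this]
  have hev : ∀ i l, p ≤ l → l ≤ q → ev f' i l = (j2.comp j1) (ev f i l) := by
    intro i l h1 h2
    rw [← lift_eW, ← lift_eW]
    exact (supp_eW i l).lift_eq f f' _ (fun m c hm1 hm2 => hf' m c (by omega) (by omega))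
  have hevt : ∀ i, ev f' i (q + 1) = E (2 * i) a b c := by
    intro i
    simp [ev, f']
  have hnew : ∀ v : FreeGroup ℕ, FreeGroup.lift e.hh v = 1 →
      FreeGroup.lift (ov f' (q + 1)) v = 1 := by
    intro v hv
    have h1 : FreeGroup.lift (ov f' (q + 1)) = jH.comp (FreeGroup.lift e.hh) := by
      apply FreeGroup.ext_hom
      intro i
      simp [← habo, ov, f']
    rw [h1, MonoidHom.comp_apply, hv, map_one]
  refine ⟨K2, inferInstance, j2.comp j1, f', hj2.comp hj1, ⟨tf2, ?_, ?_⟩, hf'⟩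
  rotate_left
  · intro v hv l hl1 hl2
    by_cases hc : l = q + 1
    · rw [hc]; exact hnew v hv
    · rw [lift_ov_map (j2.comp j1) f f' l (fun c => hf' l c (by omega) (by omega)),
        hG.hr v hv l (by omega) (by omega), map_one]
  intro i hi l hl1 hl2
  have h2 := e.two_le i
  have h3 := e.n_lt i
  rcases Int.lt_or_le q l with hlt | hle
  · have hl : l = q + 1 := by omega
    subst hl
    have hw : FreeGroup.lift f' (sh (q + 1) (e.w i)) =
        (j2.comp j1) (FreeGroup.lift f (sh (q + 1) (e.w i))) := by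
      refine ((e.supp i).sh (q + 1)).lift_eq f f' _ ?_
      intro m c hm1 hm2
      exact hf' m c (by omega) (by omega)
    by_cases hn : e.n i = 0
    · rw [lift_rel_zero e f' i _ hn, hevt, habc, hev i _ hl1 (by omega), hw]
      simp only [hn, if_true]
      have hi2 : i < (q + 1 - p).toNat + 1 := by
        have := hDi i
        omega
      have h4 := hk i hi2 ⟨hi, hn, hl1⟩
      rw [show q + 1 - 1 = q by omega, hf' q 0 hpq le_rfl]
      have h5 := congrArg j2 h4
      simp only [map_mul, map_inv] at h5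
      simp only [MonoidHom.comp_apply, map_mul, map_inv]
      rw [← h5, inv_mul_cancel_right]
      exact mul_inv_cancel _
    · rw [lift_rel_pos e f' i _ hn, hevt, habc, hev i _ (by omega) (by omega),
        hev i _ hl1 (by omega), hw, hev i _ (by omega) (by omega)]
      simp only [hn, if_false]
      simp only [MonoidHom.comp_apply, ← map_mul, ← map_inv]
      simp
  · have hs : Supp p q (sh l (e.rel i)) := by
      refine ((supp_rel e i).sh l).mono ?_ ?_
      · omega
      · omega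
    rw [hs.lift_eq f f' _ hf', hG.rel i hi l hl1 hle, map_one]

/-- extension of a good model by a new bottom level -/
theorem ext_bot {S : Set ℕ} {p q : ℤ} {K : Type} [Group K] {f : Lt → K}
    (hG : Good e S p q K f) :
    ∃ (K' : Type) (_ : Group K') (j : K →* K') (f' : Lt → K'), Function.Injective j ∧
      Mod e S (p - 1) q K' f' ∧ ∀ l c, p ≤ l → l ≤ q → f' (l, c) = j (f (l, c)) := by
  classical
  have hDi : ∀ i, i ≤ e.D i := fun i => e.mono.le_apply
  obtain ⟨K1, _, j1, hj1, tf1, k, hk⟩ := conj_ext_many hG.tf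
    (fun i => FreeGroup.lift f (sh (p - 1 + e.D i) (e.w i))) (fun i => f (p - 1 + e.D i - 1, 0))
    (fun i => i ∈ S ∧ e.n i = 0 ∧ p - 1 + e.D i ≤ q) (by
      rintro i ⟨hiS, hn, hp⟩
      have h2 := e.two_le i
      exact ⟨hG.w_ne i hiS hn _ (by omega) (by omega), hG.a_ne _ (by omega) (by omega)⟩)
    ((q + 1 - p).toNat + 1)
  obtain ⟨K2, _, j2, jH, hj2, -, tf2, a, b, c, habc, habo, -, -⟩ := univ_ext2 e.tfH tf1 (fun i =>
    if e.n i = 0 then (j1 (ev f i (p - 1 + e.D i)))⁻¹ * k i
    else j1 ((ev f i (p - 1 + e.D i - e.n i))⁻¹ * ev f i (p - 1 + e.D i) *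
      ev f i (p - 1 + e.n i) * (FreeGroup.lift f (sh (p - 1 + e.D i) (e.w i)))⁻¹)) e.hh
  let f' : Lt → K2 := fun x => if x.1 = p - 1 then ![a, b, c] x.2 else j2 (j1 (f x))
  have hf' : ∀ l c, p ≤ l → l ≤ q → f' (l, c) = (j2.comp j1) (f (l, c)) := by
    intro l c h1 _
    have : l ≠ p - 1 := by omega
    simp [f', this]
  have hev : ∀ i l, p ≤ l → l ≤ q → ev f' i l = (j2.comp j1) (ev f i l) := by
    intro i l h1 h2
    rw [← lift_eW, ← lift_eW]
    exact (supp_eW i l).lift_eq f f' _ (fun m c hm1 hm2 => hf' m c (by omega) (by omega))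
  have hevt : ∀ i, ev f' i (p - 1) = E (2 * i) a b c := by
    intro i
    simp [ev, f']
  have hnew : ∀ v : FreeGroup ℕ, FreeGroup.lift e.hh v = 1 →
      FreeGroup.lift (ov f' (p - 1)) v = 1 := by
    intro v hv
    have h1 : FreeGroup.lift (ov f' (p - 1)) = jH.comp (FreeGroup.lift e.hh) := by
      apply FreeGroup.ext_hom
      intro i
      simp [← habo, ov, f']
    rw [h1, MonoidHom.comp_apply, hv, map_one]
  refine ⟨K2, inferInstance, j2.comp j1, f', hj2.comp hj1, ⟨tf2, ?_, ?_⟩, hf'⟩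
  rotate_left
  · intro v hv l hl1 hl2
    by_cases hc : l = p - 1
    · rw [hc]; exact hnew v hv
    · rw [lift_ov_map (j2.comp j1) f f' l (fun c => hf' l c (by omega) (by omega)),
        hG.hr v hv l (by omega) (by omega), map_one]
  intro i hi l hl1 hl2
  have h2 := e.two_le i
  have h3 := e.n_lt i
  rcases Int.lt_or_le (l - e.D i) p with hlt | hle
  · have hl : l = p - 1 + e.D i := by omega
    subst hl
    have hw : FreeGroup.lift f' (sh (p - 1 + e.D i) (e.w i)) =
        (j2.comp j1) (FreeGroup.lift f (sh (p - 1 + e.D i) (e.w i))) := by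
      refine ((e.supp i).sh _).lift_eq f f' _ ?_
      intro m c hm1 hm2
      exact hf' m c (by omega) (by omega)
    by_cases hn : e.n i = 0
    · rw [lift_rel_zero e f' i _ hn, show p - 1 + (e.D i : ℤ) - e.D i = p - 1 by omega,
        hevt, habc, hev i _ (by omega) (by omega), hw]
      simp only [hn, if_true]
      have hi2 : i < (q + 1 - p).toNat + 1 := by
        have := hDi i
        omega
      have h4 := hk i hi2 ⟨hi, hn, hl2⟩
      rw [hf' _ 0 (by omega) (by omega)]
      have h5 := congrArg j2 h4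
      simp only [map_mul, map_inv] at h5
      simp only [MonoidHom.comp_apply, map_mul, map_inv]
      rw [← h5, mul_inv_cancel_left]
      exact mul_inv_cancel _
    · rw [lift_rel_pos e f' i _ hn, show p - 1 + (e.D i : ℤ) - e.D i = p - 1 by omega, hevt, habc,
        hev i _ (by omega) (by omega), hev i _ (by omega) (by omega), hw,
        hev i _ (by omega) (by omega)]
      simp only [hn, if_false]
      simp only [MonoidHom.comp_apply, map_mul, map_inv]
      generalize j2 (j1 (FreeGroup.lift f (sh (p - 1 + e.D i) (e.w i)))) = W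
      generalize j2 (j1 (ev f i (p - 1 + e.D i))) = X
      generalize j2 (j1 (ev f i (p - 1 + e.D i - e.n i))) = Y
      generalize j2 (j1 (ev f i (p - 1 + e.n i))) = Z
      group
  · have hs : Supp p q (sh l (e.rel i)) := by
      refine ((supp_rel e i).sh l).mono ?_ ?_
      · omega
      · omega
    rw [hs.lift_eq f f' _ hf', hG.rel i hi l hle hl2, map_one]

end Pool.Agent.KS6_1.SLH
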